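import Pool.Agent.Helper89.LS.Scale
import Pool.Agent.Helper31.EC.Vec

/-! The last step of the plan NS, exact form: the statement of the exact calculus implies the finite form. -/

namespace Pool.Agent.Helper89.LS

open Finset Filter Topology
open Pool.Agent.Helper69.RK (CH cel Yt ht mass)
open Pool.Agent.Helper31.EC
open Pool.Agent.Helper31.EC.Sp (VV io Bdd dl rt tr)

noncomputable section

/-- the point of the line `(a, x)` at height `t`, as a bounded vector variable -/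
def ptv {S : Sp} {m : ℕ} (a x : S.VV m) (t : S.VV 1) : S.VV m where
  v := fun k ω i => a.v k ω i + t.v k ω 0 * x.v k ω i
  bd := (VV.pt a x t).bd

/-- EXACT FORM of the Kakeya conjecture in `ℝ ^ (m + 1)`: full directions and full heights give full points -/
def EK (m : ℕ) : Prop :=
  ∀ (S : Sp) (a x : S.VV m) (t : S.VV 1),
    h (t.dg 1) (a.dg 1 ⊔ x.dg 1) = 1 → H (x.dg 1) = m → h ((ptv a x t).dg 1) (t.dg 1) = m

/-- exact form for directions of entropy at least `s r` at all levels `r` -/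
def EKS (m : ℕ) (s : ℝ) : Prop :=
  ∀ (S : Sp) (a x : S.VV m) (t : S.VV 1),
    h (t.dg 1) (a.dg 1 ⊔ x.dg 1) = 1 → (∀ r : ℝ, 0 ≤ r → r ≤ 1 → s * r ≤ H (x.dg r)) →
    s ≤ h ((ptv a x t).dg 1) (t.dg 1)

/-- cells of the calculus and cells of the finite theorem -/
theorem cell_eq {m : ℕ} (S : Sp) (k : ℕ) (n : ℕ) (hn : (S.F k).n = n) (y : Fin m → ℝ) :
    Sp.cell (S.dl 1 k) y = cel n y := by
  funext i
  unfold Sp.cell cel dl
  rw [hn, one_mul, Real.rpow_neg (by norm_num), Real.rpow_natCast, div_inv_eq_mul, mul_comm]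

/-- conditional entropies given a trivial base -/
theorem e_top (F : FSp) (hZ : F.Z = ⊤) {α β : Type} (f : F.Ω → α) (g : F.Ω → β) :
    F.e (Setoid.ker f) (Setoid.ker g ⊓ F.Z) = CH F.μ f g := by
  rw [hZ, inf_top_eq, F.e_ker]

theorem e_top0 (F : FSp) (hZ : F.Z = ⊤) {α : Type} (f : F.Ω → α) :
    F.e (Setoid.ker f) (⊤ ⊓ F.Z) = CH F.μ f (fun _ => ()) := by
  rw [hZ, inf_top_eq, ← F.e_ker]
  congr 1
  ext ω ω'
  exact ⟨fun _ => rfl, fun _ => trivial⟩

/-- (EXACT => FINITE) -/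
theorem gap_of_ek {m : ℕ} (hE : EK m) : GapFull m := by
  classical
  by_contra hcon
  unfold GapFull at hcon
  push Not at hcon
  obtain ⟨ε, hε, H0⟩ := hcon
  have H1 : ∀ k : ℕ, ∃ n : ℕ, k + 1 ≤ n ∧ ∃ (Ω : Type) (_ : Fintype Ω) (μ : Ω → ℝ) (a x : Ω → Fin m → ℝ) (t : Ω → ℕ),
      FSys m n μ a x t ∧ (m - 1 / ((k : ℝ) + 1)) * n ≤ CH μ (fun ω => cel n (x ω)) (fun _ => ()) ∧
      (1 - 1 / ((k : ℝ) + 1)) * n ≤ CH μ t (fun ω => (cel n (a ω), cel n (x ω))) ∧
      CH μ (fun ω => cel n (Yt (ht n (t ω)) (a ω) (x ω))) t < (m - ε) * n := by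
    intro k
    obtain ⟨n, hn, Ω, hΩ, μ, a, x, t, h1, h2, h3, h4⟩ := H0 (1 / ((k : ℝ) + 1)) (by positivity) (k + 1)
    exact ⟨n, hn, Ω, hΩ, μ, a, x, t, h1, h2, h3, h4⟩
  choose n hn Ω hΩ μ a x t hsys hx ht' hP using H1
  have hn0 : ∀ k, (0 : ℝ) < n k := fun k => by
    have := hn k
    exact_mod_cast (by omega : 0 < n k)
  set F : ℕ → FSp := fun k => ⟨Ω k, hΩ k, μ k, (hsys k).nn, (hsys k).ms, ⊤, n k, hn0 k⟩ with hF
  set S : Sp := ⟨F, by
    have h1 : Tendsto (fun k : ℕ => (n k : ℝ)) atTop atTop := by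
      refine tendsto_atTop_mono (fun k => ?_) tendsto_natCast_atTop_atTop
      have := hn k
      exact_mod_cast (by omega : k ≤ n k)
    exact h1.mono_left UF_le_atTop⟩ with hS
  have hSn : ∀ k, (S.F k).n = n k := fun k => rfl
  have hSZ : ∀ k, (S.F k).Z = ⊤ := fun k => rfl
  set A : S.VV m := VV.of (fun k ω i => a k ω i) ⟨1, Eventually.of_forall fun k ω _ i => by
    rw [abs_of_nonneg ((hsys k).ab ω i).1]; exact ((hsys k).ab ω i).2.le⟩ with hA
  set X : S.VV m := VV.of (fun k ω i => x k ω i) ⟨1, Eventually.of_forall fun k ω _ i => by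
    rw [abs_of_nonneg ((hsys k).xb ω i).1]; exact ((hsys k).xb ω i).2.le⟩ with hX
  have htb : ∀ k (ω : Ω k), 0 ≤ ht (n k) (t k ω) ∧ ht (n k) (t k ω) ≤ 1 := by
    intro k ω
    unfold ht
    refine ⟨by positivity, ?_⟩
    rw [div_le_one (by positivity)]
    have := (hsys k).tb ω
    exact_mod_cast this.le
  set T : S.VV 1 := VV.of (fun k ω _ => ht (n k) (t k ω)) ⟨1, Eventually.of_forall fun k ω _ i => by
    rw [abs_of_nonneg (htb k ω).1]; exact (htb k ω).2⟩ with hT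
  -- cells
  have cA : ∀ k, A.cellv 1 k = fun ω => cel (n k) (a k ω) := fun k => by
    funext ω; exact cell_eq S k (n k) rfl _
  have cX : ∀ k, X.cellv 1 k = fun ω => cel (n k) (x k ω) := fun k => by
    funext ω; exact cell_eq S k (n k) rfl _
  have cP : ∀ k, (ptv A X T).cellv 1 k = fun ω => cel (n k) (Yt (ht (n k) (t k ω)) (a k ω) (x k ω)) := fun k => by
    funext ω
    have : (ptv A X T).v k ω = Yt (ht (n k) (t k ω)) (a k ω) (x k ω) := rfl
    unfold VV.cellv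
    rw [this]
    exact cell_eq S k (n k) rfl _
  have cT : ∀ k, Setoid.ker (T.cellv 1 k) = Setoid.ker (t k) := fun k => by
    have h1 : ∀ ω, T.cellv 1 k ω = fun _ => (t k ω : ℤ) := by
      intro ω
      have h2 : T.cellv 1 k ω = cel (n k) (T.v k ω) := cell_eq S k (n k) rfl _
      rw [h2]
      funext i
      show ⌊(2 : ℝ) ^ (n k) * ((t k ω : ℝ) / 2 ^ (n k))⌋ = _
      rw [mul_div_cancel₀ _ (by positivity)]
      exact Int.floor_natCast _
    ext ω ω'
    show T.cellv 1 k ω = T.cellv 1 k ω' ↔ t k ω = t k ω'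
    rw [h1, h1]
    constructor
    · intro h2
      have := congrFun h2 0
      exact_mod_cast this
    · intro h2
      rw [h2]
  -- the entropies
  have rX : ∀ k, S.rt (fun k => Setoid.ker (X.cellv 1 k)) S.tr k =
      CH (μ k) (fun ω => cel (n k) (x k ω)) (fun _ => ()) / n k := by
    intro k
    show (S.F k).e (Setoid.ker (X.cellv 1 k)) (⊤ ⊓ (S.F k).Z) / _ = _
    rw [cX k]
    exact congrArg (fun e => e / (n k : ℝ)) (e_top0 (S.F k) rfl (fun ω => cel (n k) (x k ω)))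
  have rT : ∀ k, S.rt (fun k => Setoid.ker (T.cellv 1 k)) (fun k => Setoid.ker (fun ω => (A.cellv 1 k ω, X.cellv 1 k ω))) k =
      CH (μ k) (t k) (fun ω => (cel (n k) (a k ω), cel (n k) (x k ω))) / n k := by
    intro k
    show (S.F k).e (Setoid.ker (T.cellv 1 k)) (Setoid.ker (fun ω => (A.cellv 1 k ω, X.cellv 1 k ω)) ⊓ (S.F k).Z) / _ = _
    rw [cT k, cA k, cX k]
    exact congrArg (fun e => e / (n k : ℝ)) (e_top (S.F k) rfl (t k) (fun ω => (cel (n k) (a k ω), cel (n k) (x k ω))))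
  have rP : ∀ k, S.rt (fun k => Setoid.ker ((ptv A X T).cellv 1 k)) (fun k => Setoid.ker (T.cellv 1 k)) k =
      CH (μ k) (fun ω => cel (n k) (Yt (ht (n k) (t k ω)) (a k ω) (x k ω))) (t k) / n k := by
    intro k
    show (S.F k).e (Setoid.ker ((ptv A X T).cellv 1 k)) (Setoid.ker (T.cellv 1 k) ⊓ (S.F k).Z) / _ = _
    rw [cT k, cP k]
    exact congrArg (fun e => e / (n k : ℝ))
      (e_top (S.F k) rfl (fun ω => cel (n k) (Yt (ht (n k) (t k ω)) (a k ω) (x k ω))) (t k))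
  have eX : H (X.dg 1) = ul (S.rt (fun k => Setoid.ker (X.cellv 1 k)) S.tr) := Sp.H_io (X.bdd 1)
  have eT : h (T.dg 1) (A.dg 1 ⊔ X.dg 1) =
      ul (S.rt (fun k => Setoid.ker (T.cellv 1 k)) (fun k => Setoid.ker (fun ω => (A.cellv 1 k ω, X.cellv 1 k ω)))) := by
    unfold VV.dg
    rw [← Sp.io_pair (A.bdd 1) (X.bdd 1), Sp.h_io (T.bdd 1) ((A.bdd 1).pair (X.bdd 1))]
  have eP : h ((ptv A X T).dg 1) (T.dg 1) =
      ul (S.rt (fun k => Setoid.ker ((ptv A X T).cellv 1 k)) (fun k => Setoid.ker (T.cellv 1 k))) :=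
    Sp.h_io ((ptv A X T).bdd 1) (T.bdd 1)
  have hinv : Tendsto (fun k : ℕ => 1 / ((k : ℝ) + 1)) UF (𝓝 0) :=
    tendsto_one_div_add_atTop_nhds_zero_nat.mono_left UF_le_atTop
  -- heights
  have h1 : h (T.dg 1) (A.dg 1 ⊔ X.dg 1) = 1 := by
    refine le_antisymm ?_ ?_
    · refine (h_le_H _ _).trans ?_
      have := T.H_dg_le (r := 1) zero_le_one
      simpa using this
    · have h2 : Tendsto (fun k : ℕ => 1 - 1 / ((k : ℝ) + 1)) UF (𝓝 1) := by
        simpa using hinv.const_sub 1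
      rw [eT]
      refine le_of_tendsto_of_tendsto h2 (ul_tendsto (Sp.UB_rt (T.bdd 1).toInf _)) (Eventually.of_forall fun k => ?_)
      show _ ≤ S.rt (fun k => Setoid.ker (T.cellv 1 k)) _ k
      rw [rT k, le_div_iff₀ (hn0 k)]
      exact ht' k
  have h2 : H (X.dg 1) = m := by
    refine le_antisymm ?_ ?_
    · have := X.H_dg_le (r := 1) zero_le_one
      simpa using this
    · have h2 : Tendsto (fun k : ℕ => (m : ℝ) - 1 / ((k : ℝ) + 1)) UF (𝓝 m) := by
        simpa using hinv.const_sub (m : ℝ)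
      rw [eX]
      refine le_of_tendsto_of_tendsto h2 (ul_tendsto (X.bdd 1).toInf.ub) (Eventually.of_forall fun k => ?_)
      show _ ≤ S.rt (fun k => Setoid.ker (X.cellv 1 k)) _ k
      rw [rX k, le_div_iff₀ (hn0 k)]
      exact hx k
  have h3 := hE S A X T h1 h2
  have h4 : h ((ptv A X T).dg 1) (T.dg 1) ≤ m - ε := by
    rw [eP]
    refine ul_le_const (Sp.UB_rt ((ptv A X T).bdd 1).toInf _) (Eventually.of_forall fun k => ?_)
    rw [rP k, div_le_iff₀ (hn0 k)]
    exact (hP k).le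
  linarith

end

end Pool.Agent.Helper89.LS
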