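import Pool.Agent.Helper89.LS.Main
import Pool.Agent.Helper89.LS.Exact

/-! The last step of the plan NS from the exact statement. -/

namespace Pool.Agent.Helper89.LS

/-- the exact form of the calculus implies that every Kakeya set of `ℝ ^ n` has Hausdorff dimension `n` -/
theorem kakeya_of_ek (n : ℕ) (hn : 2 ≤ n) (hE : EK (n - 1)) (K : Set (EuclideanSpace ℝ (Fin n)))
    (hK : ∀ e : EuclideanSpace ℝ (Fin n), ‖e‖ = 1 → ∃ p, ∀ t : ℝ, 0 ≤ t → t ≤ 1 → p + t • e ∈ K) :
    dimH K = n :=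
  kakeya_of_gap n hn (gap_of_ek hE) K hK

end Pool.Agent.Helper89.LS
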