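import Pool.Agent.Helper89.LS.Defs
import Pool.Agent.Helper63.HS.COORD2

namespace Pool.Agent.Helper89.LS

open Finset
open Pool.Agent.Helper69.RK (CH cel Yt ht Sys mass)
open Pool.Agent.Helper70.HS

noncomputable section

theorem st_COORD3 (h1 : ST_UNIT3) (h2 : ST_CONT) : ST_COORD3 := by
  intro m s d hG hs hd0 hd1
  obtain ⟨η, hη0, hηs, hη1, hU⟩ := h1 m s d hG hs hd0 hd1
  refine ⟨η / 2, by linarith, by linarith, by linarith, ?_⟩
  intro L E hdim hh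
  by_contra hcon
  rw [not_le] at hcon
  -- the pieces
  set Lp : (ℤ × (Fin m → ℤ) × (Fin m → ℤ) × ℕ) → Set ((Fin m → ℝ) × (Fin m → ℝ)) :=
    fun w => {l | (∀ r, (0 ≤ (coordL w.1 w.2.1 w.2.2.1 l).1 r ∧
        (coordL w.1 w.2.1 w.2.2.1 l).1 r < 1) ∧
      (0 ≤ (coordL w.1 w.2.1 w.2.2.1 l).2 r ∧
        (coordL w.1 w.2.1 w.2.2.1 l).2 r < 1)) ∧
      Cont (1 - η) (1 / ((w.2.2.2 : ℝ) + 1)) (Hts (coordE E w.1 w.2.1 w.2.2.1)
        (coordL w.1 w.2.1 w.2.2.1 l).1 (coordL w.1 w.2.1 w.2.2.1 l).2)} with hLp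
  have hcov : L ⊆ ⋃ w, Lp w := by
    intro l hl
    have hT : {t : ℝ | (Yt t l.1 l.2, t) ∈ E} =
        ⋃ i : ℤ, ({t : ℝ | (Yt t l.1 l.2, t) ∈ E} ∩ Set.Ico (i : ℝ) (i + 1)) := by
      ext t
      simp only [Set.mem_iUnion, Set.mem_inter_iff, Set.mem_Ico]
      constructor
      · intro ht
        exact ⟨⌊t⌋, ht, Int.floor_le t, Int.lt_floor_add_one t⟩
      · rintro ⟨_, ht, _⟩
        exact ht
    have hd : ENNReal.ofReal (1 - η) < dimH {t : ℝ | (Yt t l.1 l.2, t) ∈ E} := by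
      refine lt_of_lt_of_le ?_ (hh l hl)
      exact (ENNReal.ofReal_lt_ofReal_iff (by linarith)).2 (by linarith)
    rw [hT, dimH_iUnion, lt_iSup_iff] at hd
    obtain ⟨i, hi⟩ := hd
    set j : Fin m → ℤ := fun r => ⌊l.1 r + i * l.2 r⌋ with hj
    set i0 : Fin m → ℤ := fun r => ⌊l.2 r⌋ with hi0
    have hi2 : ENNReal.ofReal (1 - η) <
        dimH (Hts (coordE E i j i0) (coordL i j i0 l).1 (coordL i j i0 l).2) :=
      lt_of_lt_of_le hi ((dimH_mono (coord_hts E i j i0 l)).trans (coord_lip i _))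
    obtain ⟨c, hc0, hc⟩ := h2 1 (1 - η) _ (by linarith) hi2
    obtain ⟨q, hq⟩ := exists_nat_one_div_lt hc0
    refine Set.mem_iUnion.2 ⟨(i, j, i0, q), ?_, coord_mono hc hq.le⟩
    intro r
    refine ⟨⟨?_, ?_⟩, ⟨?_, ?_⟩⟩
    · change 0 ≤ l.1 r + i * l.2 r - ⌊l.1 r + i * l.2 r⌋
      linarith [Int.floor_le (l.1 r + i * l.2 r)]
    · change l.1 r + i * l.2 r - ⌊l.1 r + i * l.2 r⌋ < 1
      linarith [Int.lt_floor_add_one (l.1 r + i * l.2 r)]
    · change 0 ≤ l.2 r - ⌊l.2 r⌋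
      linarith [Int.floor_le (l.2 r)]
    · change l.2 r - ⌊l.2 r⌋ < 1
      linarith [Int.lt_floor_add_one (l.2 r)]
  have hdir : ENNReal.ofReal (s - η) < ⨆ w, dimH (Prod.snd '' Lp w) := by
    rw [← dimH_iUnion, ← Set.image_iUnion]
    refine lt_of_lt_of_le ?_ (hdim.trans (dimH_mono (Set.image_mono hcov)))
    exact (ENNReal.ofReal_lt_ofReal_iff (by linarith)).2 (by linarith)
  rw [lt_iSup_iff] at hdir
  obtain ⟨⟨i, j, i0, q⟩, hw⟩ := hdir
  have hsnd : Prod.snd '' (coordL i j i0 '' Lp (i, j, i0, q)) =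
      (IsometryEquiv.subRight (fun r => (i0 r : ℝ))) '' (Prod.snd '' Lp (i, j, i0, q)) := by
    rw [Set.image_image, Set.image_image]
    rfl
  have hw2 : ENNReal.ofReal (s - η) < dimH (Prod.snd '' (coordL i j i0 '' Lp (i, j, i0, q))) := by
    rw [hsnd, IsometryEquiv.dimH_image]
    exact hw
  obtain ⟨c0, hc0, hc0'⟩ := h2 m (s - η) _ (by linarith) hw2
  have hfin := hU (min c0 (1 / ((q : ℝ) + 1))) (coordL i j i0 '' Lp (i, j, i0, q))
    (coordE E i j i0) (lt_min hc0 (by positivity)) ?_ (coord_mono hc0' (min_le_left _ _)) ?_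
  · exact absurd (hfin.trans (coord_dimE E i j i0)) (not_le.2 hcon)
  · rintro l' ⟨l, hl, rfl⟩ r
    exact hl.1 r
  · rintro l' ⟨l, hl, rfl⟩
    exact coord_mono hl.2 (min_le_right _ _)

end

end Pool.Agent.Helper89.LS
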