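import Pool.Agent.Helper70.HS.Stmts2

/-! From the discrete statement without sticky hypothesis to all Kakeya sets: statements.

`GapFull m` is the finite form of the Kakeya conjecture in `ℝ ^ (m + 1)`: lines `y = a + t x`, a random line whose
direction has almost full entropy and a random height of almost full entropy given the line; then the point at this
height has almost full entropy given the height. No hypothesis on the position of the lines. -/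

namespace Pool.Agent.Helper89.LS

open Finset
open Pool.Agent.Helper69.RK (CH cel Yt ht mass)
open Pool.Agent.Helper70.HS (Cont)

noncomputable section

/-- finite systems of depth `n` in coordinates: weights of mass one, lines `y = a + t x` over the unit cubes, heights
with numbers below `2 ^ n` -/
structure FSys (m n : ℕ) {Ω : Type} [Fintype Ω] (μ : Ω → ℝ) (a x : Ω → Fin m → ℝ) (t : Ω → ℕ) : Prop where
  nn : ∀ ω, 0 ≤ μ ω
  ms : mass μ = 1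
  ab : ∀ ω i, 0 ≤ a ω i ∧ a ω i < 1
  xb : ∀ ω i, 0 ≤ x ω i ∧ x ω i < 1
  tb : ∀ ω, t ω < 2 ^ n

/-- the finite form of the Kakeya conjecture in `ℝ ^ (m + 1)` -/
def GapFull (m : ℕ) : Prop :=
  ∀ ε : ℝ, 0 < ε → ∃ η : ℝ, 0 < η ∧ ∃ n0 : ℕ, ∀ n : ℕ, n0 ≤ n →
    ∀ (Ω : Type) [Fintype Ω] (μ : Ω → ℝ) (a x : Ω → Fin m → ℝ) (t : Ω → ℕ), FSys m n μ a x t →
      (m - η) * n ≤ CH μ (fun ω => cel n (x ω)) (fun _ => ()) →
      (1 - η) * n ≤ CH μ t (fun ω => (cel n (a ω), cel n (x ω))) →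
      (m - ε) * n ≤ CH μ (fun ω => cel n (Yt (ht n (t ω)) (a ω) (x ω))) t

/-- the version with directions of dimension `s` at all scales -/
def GapS (m : ℕ) (s : ℝ) : Prop :=
  ∀ ε : ℝ, 0 < ε → ∃ η : ℝ, 0 < η ∧ ∃ n0 : ℕ, ∀ n : ℕ, n0 ≤ n →
    ∀ (Ω : Type) [Fintype Ω] (μ : Ω → ℝ) (a x : Ω → Fin m → ℝ) (t : Ω → ℕ), FSys m n μ a x t →
      (∀ k ≤ n, s * k - η * n ≤ CH μ (fun ω => cel k (x ω)) (fun _ => ())) →
      (1 - η) * n ≤ CH μ t (fun ω => (cel n (a ω), cel n (x ω))) →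
      (s - ε) * n ≤ CH μ (fun ω => cel n (Yt (ht n (t ω)) (a ω) (x ω))) t

theorem gapS_of_full {m : ℕ} (h : GapFull m) : GapS m m := by
  intro ε hε
  obtain ⟨η, hη, n0, H⟩ := h ε hε
  refine ⟨η, hη, n0, fun n hn Ω _ μ a x t hs hx ht => H n hn Ω μ a x t hs ?_ ht⟩
  refine le_trans (le_of_eq ?_) (hx n le_rfl)
  ring

/-- (SCALE3) contradiction at one scale -/
def ST_SCALE3 : Prop :=
  ∀ (m : ℕ) (s d : ℝ), GapS m s → 0 < s → 0 < d → d < s + 1 → ∃ η : ℝ, 0 < η ∧ η < s ∧ η < 1 ∧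
    ∀ c : ℝ, 0 < c → c ≤ 1 → ∃ n0 : ℕ, ∀ n : ℕ, n0 ≤ n →
      ∀ (L : Set ((Fin m → ℝ) × (Fin m → ℝ))) (A : (Fin m → ℝ) × (Fin m → ℝ) → Finset ℕ)
        (F : Finset ((Fin m → ℤ) × ℕ)),
        (∀ l ∈ L, ∀ i, (0 ≤ l.1 i ∧ l.1 i < 1) ∧ (0 ≤ l.2 i ∧ l.2 i < 1)) →
        Cont (s - η) (c / n ^ 2) (Prod.snd '' L) →
        (∀ l ∈ L, (∀ g ∈ A l, g < 2 ^ n ∧ ∃ t : ℝ, (g : ℝ) ≤ 2 ^ n * t ∧ 2 ^ n * t < g + 1 ∧
          (cel n (Yt t l.1 l.2), g) ∈ F) ∧ c / n ^ 2 * (2 : ℝ) ^ ((1 - η) * n) ≤ (A l).card) →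
        (2 : ℝ) ^ (d * n) < F.card

/-- (UNIT3) the theorem for one bounded piece of the line set -/
def ST_UNIT3 : Prop :=
  ∀ (m : ℕ) (s d : ℝ), GapS m s → 0 < s → 0 < d → d < s + 1 → ∃ η : ℝ, 0 < η ∧ η < s ∧ η < 1 ∧
    ∀ (c : ℝ) (L : Set ((Fin m → ℝ) × (Fin m → ℝ))) (E : Set ((Fin m → ℝ) × ℝ)), 0 < c →
      (∀ l ∈ L, ∀ i, (0 ≤ l.1 i ∧ l.1 i < 1) ∧ (0 ≤ l.2 i ∧ l.2 i < 1)) →
      Cont (s - η) c (Prod.snd '' L) → (∀ l ∈ L, Cont (1 - η) c (Pool.Agent.Helper70.HS.Hts E l.1 l.2)) →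
      ENNReal.ofReal d ≤ dimH E

/-- (COORD3) the theorem in coordinates -/
def ST_COORD3 : Prop :=
  ∀ (m : ℕ) (s d : ℝ), GapS m s → 0 < s → 0 < d → d < s + 1 → ∃ η : ℝ, 0 < η ∧ η < s ∧ η < 1 ∧
    ∀ (L : Set ((Fin m → ℝ) × (Fin m → ℝ))) (E : Set ((Fin m → ℝ) × ℝ)),
      ENNReal.ofReal (s - η) ≤ dimH (Prod.snd '' L) →
      (∀ l ∈ L, ENNReal.ofReal (1 - η) ≤ dimH {t : ℝ | (Yt t l.1 l.2, t) ∈ E}) →
      ENNReal.ofReal d ≤ dimH E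

/-- (FIN3) robust invariant theorem: any set of lines whose directions have dimension almost `s`, each meeting `K` in a
set of dimension almost one -/
def ST_FIN3 : Prop :=
  ∀ (m : ℕ) (s ε : ℝ), GapS m s → 0 < s → 0 < ε → ∃ η : ℝ, 0 < η ∧
    ∀ (L : Set (EuclideanSpace ℝ (Fin (m + 1)) × EuclideanSpace ℝ (Fin (m + 1))))
      (K : Set (EuclideanSpace ℝ (Fin (m + 1)))), (∀ l ∈ L, ‖l.2‖ = 1) →
      ENNReal.ofReal (s - η) ≤ dimH (Prod.snd '' L) →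
      (∀ l ∈ L, ENNReal.ofReal (1 - η) ≤ dimH {t : ℝ | l.1 + t • l.2 ∈ K}) →
      ENNReal.ofReal (s + 1 - ε) ≤ dimH K

end

end Pool.Agent.Helper89.LS
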