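import Pool.Agent.Helper89.LS.Defs
import Pool.Agent.Helper70.HS.FIN2
import Pool.Agent.Helper70.HS.Final
import Pool.Agent.Helper68.HS.CHART2

namespace Pool.Agent.Helper89.LS

open Finset
open Pool.Agent.Helper69.RK (Yt)
open Pool.Agent.Helper70.HS
open Pool.Agent.Helper68.HS (phi psi dimH_dir heights2 psi_lip)

theorem st_FIN3 (hcoord : ST_COORD3) : ST_FIN3 := by
  intro m s ε hgap hs hε
  by_cases hd : s + 1 - ε ≤ 0
  · refine ⟨1, one_pos, fun L K _ _ _ => ?_⟩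
    rw [ENNReal.ofReal_of_nonpos hd]
    exact zero_le
  push Not at hd
  obtain ⟨η, hη0, hηs, hη1, hC⟩ := hcoord m s (s + 1 - ε) hgap hs hd (by linarith)
  refine ⟨η, hη0, fun L K hL hdim hK => ?_⟩
  have hm : (0 : ℝ) < (m : ℝ) + 1 := by positivity
  obtain ⟨i, hi⟩ := fin_piece m (ENNReal.ofReal (s - η)) L hL hdim
  set L0 : Set (EuclideanSpace ℝ (Fin (m + 1)) × EuclideanSpace ℝ (Fin (m + 1))) :=
    {l | l ∈ L ∧ 1 / ((m : ℝ) + 1) ≤ |l.2 i|} with hL0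
  have hne : ∀ l ∈ L0, l.2 i ≠ 0 := by
    intro l hl h0
    have := hl.2
    rw [h0, abs_zero] at this
    have h1 : (0 : ℝ) < 1 / ((m : ℝ) + 1) := by positivity
    linarith
  refine le_trans (hC (phi i '' L0) (psi i '' K) ?_ ?_) ((psi_lip i).dimH_image_le K)
  · exact le_trans hi (dimH_dir i L0 (fun l hl => ⟨hL l hl.1, hne l hl⟩))
  · rintro _ ⟨l, hl, rfl⟩
    exact heights2 i l K _ (hne l hl) (hK l hl.1)

/-- exact form from the robust form -/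
theorem fin_exact3 (hfin : ST_FIN3) (m : ℕ) (s : ℝ) (hgap : GapS m s) (hs : 0 < s)
    (L : Set (EuclideanSpace ℝ (Fin (m + 1)) × EuclideanSpace ℝ (Fin (m + 1))))
    (K : Set (EuclideanSpace ℝ (Fin (m + 1)))) (hL : ∀ l ∈ L, ‖l.2‖ = 1)
    (hd : ENNReal.ofReal s ≤ dimH (Prod.snd '' L)) (hK : ∀ l ∈ L, 1 ≤ dimH {t : ℝ | l.1 + t • l.2 ∈ K}) :
    ENNReal.ofReal (s + 1) ≤ dimH K := by
  refine le_of_forall_lt (fun c hc => ?_)
  have hct : c ≠ ⊤ := ne_top_of_lt hc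
  obtain ⟨r, rfl⟩ : ∃ r : NNReal, c = (r : ENNReal) := ⟨c.toNNReal, (ENNReal.coe_toNNReal hct).symm⟩
  have hr : (r : ℝ) < s + 1 := by
    have h1 : ENNReal.ofReal (r : ℝ) < ENNReal.ofReal (s + 1) := by rwa [ENNReal.ofReal_coe_nnreal]
    exact (ENNReal.ofReal_lt_ofReal_iff (by linarith)).1 h1
  obtain ⟨η, hη, h⟩ := hfin m s ((s + 1 - r) / 2) hgap hs (by linarith)
  have h2 := h L K hL (le_trans (ENNReal.ofReal_le_ofReal (by linarith)) hd)
    (fun l hl => le_trans (by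
      rw [← ENNReal.ofReal_one]
      exact ENNReal.ofReal_le_ofReal (by linarith)) (hK l hl))
  refine lt_of_lt_of_le ?_ h2
  rw [← ENNReal.ofReal_coe_nnreal, ENNReal.ofReal_lt_ofReal_iff (by linarith [r.2, r.coe_nonneg])]
  linarith

/-- Kakeya sets -/
theorem kakeya_of_fin3 (hfin : ST_FIN3) (hsph : ST_SPH) (m : ℕ) (hm : 1 ≤ m) (hgap : GapFull m)
    (K : Set (EuclideanSpace ℝ (Fin (m + 1))))
    (hK : ∀ e : EuclideanSpace ℝ (Fin (m + 1)), ‖e‖ = 1 → ∃ p, ∀ t : ℝ, 0 ≤ t → t ≤ 1 → p + t • e ∈ K) :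
    dimH K = (m + 1 : ℕ) := by
  refine le_antisymm ?_ ?_
  · refine le_trans (dimH_mono (Set.subset_univ K)) ?_
    rw [Real.dimH_univ_eq_finrank, finrank_euclideanSpace_fin]
  · have hm0 : (0 : ℝ) < m := by exact_mod_cast hm
    set L' : Set (EuclideanSpace ℝ (Fin (m + 1)) × EuclideanSpace ℝ (Fin (m + 1))) :=
      {l | ‖l.2‖ = 1 ∧ ∀ t : ℝ, 0 ≤ t → t ≤ 1 → l.1 + t • l.2 ∈ K} with hL'
    have h1 := fin_exact3 hfin m m (gapS_of_full hgap) hm0 L' K (fun l hl => hl.1) (by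
      refine le_trans (hsph m) (dimH_mono ?_)
      intro e he
      obtain ⟨p, hp2⟩ := hK e he
      exact ⟨(p, e), ⟨he, hp2⟩, rfl⟩)
      (fun l hl => dimH_seg (fun t ht => hl.2 t ht.1 ht.2))
    refine le_trans (le_of_eq ?_) h1
    have : ((m : ℝ) + 1) = ((m + 1 : ℕ) : ℝ) := by push_cast; ring
    rw [this, ENNReal.ofReal_natCast]

end Pool.Agent.Helper89.LS
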