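import Pool.Agent.Helper89.LS.Scale
import Pool.Agent.Helper89.LS.Unit
import Pool.Agent.Helper89.LS.Coord
import Pool.Agent.Helper89.LS.Fin
import Pool.Agent.Helper35.HS.CONT
import Pool.Agent.Helper2.HS.COVER
import Pool.Agent.Helper4.HS.ENT
import Pool.Agent.Helper13.HS.FROST
import Pool.Agent.Helper11.HS.LEVPIG
import Pool.Agent.Helper93.HS.SPH
import Pool.Agent.Helper96.RK.E1
import Pool.Agent.Helper96.RK.E2
import Pool.Agent.Helper96.RK.E3

/-! The last step of the plan NS: the finite form `GapFull m` implies the Kakeya conjecture in `ℝ ^ (m + 1)`. -/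

namespace Pool.Agent.Helper89.LS

open Pool.Agent.Helper70.HS

theorem fin3_all : ST_FIN3 := by
  have e1 := Pool.Agent.Helper69.RK.st_E1
  have e2 := Pool.Agent.Helper69.RK.st_E2 e1
  have e3 := Pool.Agent.Helper69.RK.st_E3
  have ent := Pool.Agent.Helper4.HS.st_ENT e1 e3 Pool.Agent.Helper13.HS.st_FROST
  have scale := st_SCALE3 e1 e2 e3 ent
  have unit := st_UNIT3 Pool.Agent.Helper2.HS.st_COVER Pool.Agent.Helper11.HS.LEVPIG.st_LEV
    Pool.Agent.Helper11.HS.LEVPIG.st_PIG Pool.Agent.Helper11.HS.LEVPIG.st_NUM scale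
  exact st_FIN3 (st_COORD3 unit Pool.Agent.Helper35.HS.st_CONT)

/-- the finite form implies that every Kakeya set of `ℝ ^ n` has Hausdorff dimension `n` -/
theorem kakeya_of_gap (n : ℕ) (hn : 2 ≤ n) (hgap : GapFull (n - 1)) (K : Set (EuclideanSpace ℝ (Fin n)))
    (hK : ∀ e : EuclideanSpace ℝ (Fin n), ‖e‖ = 1 → ∃ p, ∀ t : ℝ, 0 ≤ t → t ≤ 1 → p + t • e ∈ K) :
    dimH K = n := by
  obtain ⟨m, rfl⟩ : ∃ m, n = m + 1 := ⟨n - 1, by omega⟩
  exact kakeya_of_fin3 fin3_all Pool.Agent.Helper93.HS.st_SPH m (by omega) hgap K hK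

/-- robust form: any set of lines whose directions have dimension at least `s - η`, each meeting `K` in a set of
dimension at least `1 - η` -/
theorem furstenberg_of_gap (m : ℕ) (s : ℝ) (hs : 0 < s) (hgap : GapS m s) (ε : ℝ) (hε : 0 < ε) :
    ∃ η : ℝ, 0 < η ∧
    ∀ (L : Set (EuclideanSpace ℝ (Fin (m + 1)) × EuclideanSpace ℝ (Fin (m + 1))))
      (K : Set (EuclideanSpace ℝ (Fin (m + 1)))), (∀ l ∈ L, ‖l.2‖ = 1) →
      ENNReal.ofReal (s - η) ≤ dimH (Prod.snd '' L) →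
      (∀ l ∈ L, ENNReal.ofReal (1 - η) ≤ dimH {t : ℝ | l.1 + t • l.2 ∈ K}) →
      ENNReal.ofReal (s + 1 - ε) ≤ dimH K :=
  fin3_all m s ε hgap hs hε

end Pool.Agent.Helper89.LS
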