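import Pool.Agent.Helper89.LS.Defs
import Pool.Agent.Helper70.HS.SCALE

namespace Pool.Agent.Helper89.LS

open Finset
open Pool.Agent.Helper69.RK
open Pool.Agent.Helper70.HS (Cont Box ST_ENT scale_growth)

open Classical in
/-- conditional entropy depends only on the partitions -/
theorem CH_congr {Ω α β α' β' : Type} [Fintype Ω] (μ : Ω → ℝ) {f : Ω → α} {f' : Ω → α'} {g : Ω → β} {g' : Ω → β'}
    (hf : ∀ ω ω', f ω = f ω' ↔ f' ω = f' ω') (hg : ∀ ω ω', g ω = g ω' ↔ g' ω = g' ω') : CH μ f g = CH μ f' g' := by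
  unfold CH
  refine Finset.sum_congr rfl (fun ω _ => ?_)
  have h1 : pr μ g ω = pr μ g' ω := by
    unfold pr
    refine Finset.sum_congr rfl (fun ω' _ => ?_)
    simp only [hg]
  have h2 : pr μ (fun ω' => (f ω', g ω')) ω = pr μ (fun ω' => (f' ω', g' ω')) ω := by
    unfold pr
    refine Finset.sum_congr rfl (fun ω' _ => ?_)
    simp only [Prod.mk.injEq, hf, hg]
  rw [h1, h2]

/-- lines over the unit cubes: the trivial box condition -/
theorem box_unit {m : ℕ} (L : Set ((Fin m → ℝ) × (Fin m → ℝ)))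
    (hL : ∀ l ∈ L, ∀ i, (0 ≤ l.1 i ∧ l.1 i < 1) ∧ (0 ≤ l.2 i ∧ l.2 i < 1)) : Box (2 * m) 1 L := by
  classical
  intro k
  set D : Finset (Fin m → ℤ) := Fintype.piFinset fun _ => Finset.Ico (0 : ℤ) (2 ^ k) with hD
  have hDc : D.card = (2 ^ k) ^ m := by
    rw [hD, Fintype.card_piFinset, Finset.prod_const, Int.card_Ico, Finset.card_univ, Fintype.card_fin, sub_zero]
    congr 1
  have hc : ∀ y : ℝ, 0 ≤ y → y < 1 → 0 ≤ ⌊(2 : ℝ) ^ k * y⌋ ∧ ⌊(2 : ℝ) ^ k * y⌋ < 2 ^ k := by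
    intro y h0 h1
    refine ⟨Int.floor_nonneg.2 (by positivity), ?_⟩
    rw [Int.floor_lt]
    push_cast
    have : (0 : ℝ) < 2 ^ k := by positivity
    nlinarith
  refine ⟨D ×ˢ D, fun l hl => ?_, ?_⟩
  · rw [Finset.mem_product, hD, Fintype.mem_piFinset, Fintype.mem_piFinset]
    refine ⟨fun i => ?_, fun i => ?_⟩
    · exact Finset.mem_Ico.2 (hc _ (hL l hl i).1.1 (hL l hl i).1.2)
    · exact Finset.mem_Ico.2 (hc _ (hL l hl i).2.1 (hL l hl i).2.2)
  · rw [Finset.card_product, hDc, one_mul]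
    push_cast
    have h1 : (2 : ℝ) ^ (2 * (m : ℝ) * k) = ((2 : ℝ) ^ k) ^ m * ((2 : ℝ) ^ k) ^ m := by
      have : 2 * (m : ℝ) * k = ((k * m + k * m : ℕ) : ℝ) := by push_cast; ring
      rw [this, Real.rpow_natCast, pow_add, pow_mul]
    rw [h1]

theorem st_SCALE3 (e1 : ST_E1) (e2 : ST_E2) (e3 : ST_E3) (hent : ST_ENT) : ST_SCALE3 := by
  classical
  intro m s d hgap hs hd hds
  set ρ : ℝ := s + 1 - d with hρ
  have hρ0 : 0 < ρ := by rw [hρ]; linarith
  obtain ⟨ηG, hηG, nG, hG⟩ := hgap (ρ / 8) (by positivity)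
  set η : ℝ := min (min (ηG / 4) (ρ / 16)) (min (s / 2) (1 / 2)) with hη
  have hη0 : 0 < η := by
    rw [hη]
    refine lt_min (lt_min (by positivity) (by positivity)) (lt_min (by positivity) (by norm_num))
  have hη1 : η ≤ ηG / 4 := le_trans (min_le_left _ _) (min_le_left _ _)
  have hη2 : η ≤ ρ / 16 := le_trans (min_le_left _ _) (min_le_right _ _)
  have hη3 : η ≤ s / 2 := le_trans (min_le_right _ _) (min_le_left _ _)
  have hη4 : η ≤ 1 / 2 := le_trans (min_le_right _ _) (min_le_right _ _)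
  refine ⟨η, hη0, by linarith, by linarith, ?_⟩
  intro c hc hc1
  obtain ⟨n0, hn0⟩ := scale_growth m 1 c η hη0
  refine ⟨max n0 nG, fun n hn L A F hL hcont hA => ?_⟩
  have hbox := box_unit L hL
  obtain ⟨hgr, hn1⟩ := hn0 n (le_trans (le_max_left _ _) hn)
  have hnG : nG ≤ n := le_trans (le_max_right _ _) hn
  have hnp : (0 : ℝ) < n := by exact_mod_cast hn1
  have hn1' : (1 : ℝ) ≤ n := by exact_mod_cast hn1
  have hcn : 0 < c / (n : ℝ) ^ 2 := by positivity
  have hcn1 : c / (n : ℝ) ^ 2 ≤ 1 := by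
    rw [div_le_one (by positivity)]
    exact le_trans hc1 (one_le_pow₀ hn1')
  have hb0 : 0 < c / (n : ℝ) ^ 2 * (2 : ℝ) ^ ((1 - η) * n) := by positivity
  obtain ⟨Ω, _, μ, a, x, t, hnn, hms, hsup, hX, _, hT⟩ := hent m n (2 * m) (s - η) 1 (c / (n : ℝ) ^ 2)
    (c / (n : ℝ) ^ 2 * (2 : ℝ) ^ ((1 - η) * n)) L A (by linarith) hcn hcn1 le_rfl (by positivity) hb0 hL hbox hcont
    (fun l hl => ⟨fun g hg => ((hA l hl).1 g hg).1, (hA l hl).2⟩)
  -- logarithms
  have hlogM : Real.logb 2 (1 : ℝ) = 0 := Real.logb_one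
  have hlogc : 0 ≤ Real.logb 2 (1 / c) := Real.logb_nonneg (by norm_num) (by rw [le_div_iff₀ hc]; linarith)
  have hlogn : 0 ≤ Real.logb 2 n := Real.logb_nonneg (by norm_num) hn1'
  have hl1 : Real.logb 2 (1 / (c / (n : ℝ) ^ 2)) = 2 * Real.logb 2 n + Real.logb 2 (1 / c) := by
    have : 1 / (c / (n : ℝ) ^ 2) = (n : ℝ) ^ 2 * (1 / c) := by field_simp
    rw [this, Real.logb_mul (by positivity) (by positivity), Real.logb_pow]
    push_cast
    ring
  have hl2 : Real.logb 2 (c / (n : ℝ) ^ 2 * (2 : ℝ) ^ ((1 - η) * n)) =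
      (1 - η) * n - (2 * Real.logb 2 n + Real.logb 2 (1 / c)) := by
    rw [Real.logb_mul hcn.ne' (by positivity), Real.logb_rpow (by norm_num) (by norm_num)]
    have : Real.logb 2 (c / (n : ℝ) ^ 2) = - Real.logb 2 (1 / (c / (n : ℝ) ^ 2)) := by
      rw [one_div, Real.logb_inv, neg_neg]
    rw [this, hl1]
    ring
  rw [hl1] at hX
  rw [hl2] at hT
  have hm0 : (0 : ℝ) ≤ m := Nat.cast_nonneg m
  have herr2 : 2 * Real.logb 2 n + Real.logb 2 (1 / c) ≤ η * n := by linarith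
  have hηn : 0 ≤ η * n := by positivity
  -- the system
  have ht2 : ∀ ω, t ω < 2 ^ n := fun ω => ((hA _ (hsup ω).1).1 _ (hsup ω).2).1
  have hsys : FSys m n μ a x t :=
    ⟨hnn, hms, fun ω i => (hL _ (hsup ω).1 i).1, fun ω i => (hL _ (hsup ω).1 i).2, ht2⟩
  have h4G : 4 * (η * n) ≤ ηG * n := by
    have := mul_le_mul_of_nonneg_right hη1 hnp.le
    linarith
  have hXG : ∀ k ≤ n, s * k - ηG * n ≤ CH μ (fun ω => cel k (x ω)) (fun _ => ()) := by
    intro k hk
    refine le_trans ?_ (hX k hk)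
    have hk' : (k : ℝ) ≤ n := by exact_mod_cast hk
    have h1 := mul_le_mul_of_nonneg_left hk' hη0.le
    have h2 : (s - η) * (k : ℝ) = s * k - η * k := by ring
    rw [h2]
    linarith
  have hTT : CH μ t (fun ω => (cel n (a ω), cel n (x ω), ())) = CH μ t (fun ω => (cel n (a ω), cel n (x ω))) :=
    CH_congr μ (fun _ _ => Iff.rfl) (fun ω ω' => by simp)
  have hT' : (1 - ηG) * n ≤ CH μ t (fun ω => (cel n (a ω), cel n (x ω))) := by
    rw [← hTT]
    refine le_trans ?_ hT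
    linarith
  have hgapn := hG n hnG Ω μ a x t hsys hXG hT'
  -- entropy of (height, cell)
  set C : Ω → Fin m → ℤ := fun ω => cel n (Yt (ht n (t ω)) (a ω) (x ω)) with hC
  have hchain := (e1 Ω ℕ (Fin m → ℤ) Unit μ t C (fun _ => ()) hnn).2.1
  have hCt : CH μ C (fun ω => (t ω, ())) = CH μ C t := CH_congr μ (fun _ _ => Iff.rfl) (fun ω ω' => by simp)
  have hTZ : CH μ t (fun ω => (cel n (a ω), cel n (x ω), ())) ≤ CH μ t (fun _ => ()) :=
    (e2.2.1 Ω ℕ Unit _ μ t (fun _ => ()) (fun ω => (cel n (a ω), cel n (x ω), ())) hnn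
      (fun _ _ _ _ _ => rfl))
  -- the values of (t, C)
  have hne : ∃ ω, μ ω ≠ 0 := by
    by_contra hcon
    push Not at hcon
    have : mass μ = 0 := by
      unfold mass
      exact Finset.sum_eq_zero (fun ω _ => hcon ω)
    rw [hms] at this
    exact one_ne_zero this
  have hFpos : 0 < F.card := by
    obtain ⟨ω, _⟩ := hne
    obtain ⟨_, t', _, _, hF⟩ := (hA _ (hsup ω).1).1 _ (hsup ω).2
    exact Finset.card_pos.2 ⟨_, hF⟩
  set V : Finset (Fin m → ℤ) := Fintype.piFinset (fun _ => ({0, 1} : Finset ℤ)) with hV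
  have hVcard : V.card ≤ 2 ^ m := by
    rw [hV, Fintype.card_piFinset]
    simp
  set W : Finset (ℕ × (Fin m → ℤ)) := (F ×ˢ V).image (fun p => (p.1.2, p.1.1 - p.2)) with hW
  have hWcard : (W.card : ℝ) ≤ 2 ^ m * F.card := by
    have h1 : W.card ≤ F.card * V.card := by
      rw [hW, ← Finset.card_product]
      exact Finset.card_image_le
    have h2 : F.card * V.card ≤ F.card * 2 ^ m := Nat.mul_le_mul_left _ hVcard
    have h3 : (W.card : ℝ) ≤ ((F.card * 2 ^ m : ℕ) : ℝ) := by exact_mod_cast le_trans h1 h2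
    push_cast at h3
    linarith
  have hval : ∀ ω, (t ω, C ω) ∈ W := by
    intro ω
    obtain ⟨_, t', h1, h2, hF⟩ := (hA _ (hsup ω).1).1 _ (hsup ω).2
    have hLω := hL _ (hsup ω).1
    rw [hW, Finset.mem_image]
    refine ⟨((cel n (Yt t' (a ω) (x ω)), t ω), cel n (Yt t' (a ω) (x ω)) - C ω), ?_, ?_⟩
    · rw [Finset.mem_product]
      refine ⟨hF, ?_⟩
      rw [hV, Fintype.mem_piFinset]
      intro i
      have hx := (hLω i).2
      simp only at hx
      have hdiff : (2 : ℝ) ^ n * Yt t' (a ω) (x ω) i =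
          (2 : ℝ) ^ n * Yt (ht n (t ω)) (a ω) (x ω) i + ((2 : ℝ) ^ n * t' - t ω) * x ω i := by
        unfold Yt ht
        field_simp
        ring
      set δ : ℝ := ((2 : ℝ) ^ n * t' - t ω) * x ω i with hδ
      have hδ0 : 0 ≤ δ := mul_nonneg (by linarith) hx.1
      have hδ1 : δ < 1 := by
        have h3 : (2 : ℝ) ^ n * t' - t ω < 1 := by linarith
        have h4 : 0 ≤ (2 : ℝ) ^ n * t' - t ω := by linarith
        nlinarith [hx.1, hx.2]
      have hg : (cel n (Yt t' (a ω) (x ω)) - C ω) i =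
          ⌊(2 : ℝ) ^ n * Yt (ht n (t ω)) (a ω) (x ω) i + δ⌋ - ⌊(2 : ℝ) ^ n * Yt (ht n (t ω)) (a ω) (x ω) i⌋ := by
        simp only [hC, Pi.sub_apply, cel]
        rw [hdiff]
      show (cel n (Yt t' (a ω) (x ω)) - C ω) i ∈ _
      rw [hg]
      set y : ℝ := (2 : ℝ) ^ n * Yt (ht n (t ω)) (a ω) (x ω) i
      have h5 : ⌊y⌋ ≤ ⌊y + δ⌋ := Int.floor_le_floor (by linarith)
      have h6 : ⌊y + δ⌋ ≤ ⌊y⌋ + 1 := by
        have : ⌊y + δ⌋ ≤ ⌊y + 1⌋ := Int.floor_le_floor (by linarith)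
        rwa [Int.floor_add_one] at this
      simp only [Finset.mem_insert, Finset.mem_singleton]
      omega
    · simp
  have hWpos : 0 < (W.card : ℝ) := by
    obtain ⟨ω, _⟩ := hne
    exact_mod_cast Finset.card_pos.2 ⟨_, hval ω⟩
  have hup : CH μ (fun ω => (t ω, C ω)) (fun _ => ()) ≤ m + Real.logb 2 F.card := by
    have h1 := e3.1 Ω (ℕ × (Fin m → ℤ)) Unit μ (fun ω => (t ω, C ω)) (fun _ => ()) (fun _ => (W.card : ℝ)) hnn
      (fun ω _ => by
        refine Nat.cast_le.2 (Finset.card_le_card ?_)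
        intro p hp
        obtain ⟨ω', _, rfl⟩ := (@Finset.mem_image _ _ (fun a b => Classical.propDecidable (a = b)) _ _ _).1 hp
        exact hval ω')
    refine le_trans h1 ?_
    have h2 : ∑ ω, μ ω * Real.logb 2 (W.card : ℝ) = Real.logb 2 (W.card : ℝ) := by
      rw [← Finset.sum_mul]
      have : ∑ ω, μ ω = 1 := hms
      rw [this, one_mul]
    rw [h2]
    have hF0 : (0 : ℝ) < F.card := by exact_mod_cast hFpos
    have h3 : Real.logb 2 (W.card : ℝ) ≤ Real.logb 2 (2 ^ m * F.card) :=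
      Real.logb_le_logb_of_le (by norm_num) hWpos hWcard
    refine le_trans h3 (le_of_eq ?_)
    rw [Real.logb_mul (by positivity) hF0.ne', Real.logb_pow, Real.logb_self_eq_one (by norm_num)]
    ring
  -- conclusion
  have h16 : η * n ≤ ρ / 16 * n := mul_le_mul_of_nonneg_right hη2 hnp.le
  have hfin : d * n < Real.logb 2 F.card := by
    have hρn : 0 < ρ * n := by positivity
    have hdn : d * n = (s + 1) * n - ρ * n := by rw [hρ]; ring
    have e5 : (1 - η) * (n : ℝ) = n - η * n := by ring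
    have e6 : (s + 1) * (n : ℝ) = s * n + n := by ring
    have e7 : (s - ρ / 8) * (n : ℝ) = s * n - ρ / 8 * n := by ring
    rw [e5] at hT
    rw [e7] at hgapn
    rw [hCt] at hchain
    have hm : (m : ℝ) ≤ η * n := by linarith
    linarith
  have hF0 : (0 : ℝ) < F.card := by exact_mod_cast hFpos
  calc (2 : ℝ) ^ (d * n) < (2 : ℝ) ^ (Real.logb 2 F.card) :=
        Real.rpow_lt_rpow_of_exponent_lt (by norm_num) hfin
    _ = F.card := Real.rpow_logb (by norm_num) (by norm_num) hF0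

end Pool.Agent.Helper89.LS
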